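import Mathlib
import Pool.Agent.Q60.D3T.Tate
import Pool.Agent.Q247.WT.Conv
import Pool.Agent.W547.HR.Final
import Pool.Agent.W547.DP.DMain
import Pool.Agent.W547.UB.Crys

/-!
# The standard conjectures for ordinary abelian varieties whose canonical lifts have generated Hodge
rings (after projects HR, DP and UB)
-/

set_option linter.unusedSectionVars false
set_option linter.unusedVariables false

namespace Pool.Agent.Q60.D3T

open NumberField Pool.Agent.H204R3.CM Pool.Agent.W547.KB Pool.Agent.W547.LD Pool.Agent.W530.NF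
open Equiv Module
open Pool.Agent.W547.LN (IsFrobeniusAt IsTateClass IsCanonicalLift IsFrobeniusMap IsTateClassOver)
open Pool.Agent.Q60.D3G (av R)
open Pool.Agent.W547.HR hiding HasRationalNumbers exists_divisor exists_power exists_functional_form positive_of_generated
open Pool.Agent.W547 (LQ.eq_zero_of_restr)

noncomputable section

variable {𝒟 : Set ℕ} {X : CMAV}

/-- The intersection numbers of `z` with the generated classes of complementary degree are rational
(with respect to the rational structure of the top cohomology given by `H_1(X, ℚ)`). The classes of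
algebraic cycles have this property if the generated classes are algebraic. -/
def HasRationalNumbers (𝒟 : Set ℕ) {X : CMAV} {K V : Type} [Field K] [AddCommGroup V] [Module K V]
    (C : Comparison X K V) {κ : Type} [Fintype κ] [DecidableEq κ] (z : V [⋀^κ]→ₗ[K] K) : Prop :=
  ∀ (κ' : Type) [Fintype κ'] [DecidableEq κ'] (h : X.H1 [⋀^κ']→ₗ[ℚ] ℚ),
    Fintype.card κ + Fintype.card κ' = finrank ℚ X.H1 → R 𝒟 X κ' h →
      ∀ v : κ ⊕ κ' → X.H1, ∃ a : ℚ, altSum (times (onH1 C z) (fun u => ((h u : ℚ) : K))) v = a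

/-- The cup product of `z` with every generated class of complementary degree is zero. If the generated
classes are algebraic, every numerically trivial `z` has this property. -/
def IsOrthogonal (𝒟 : Set ℕ) {X : CMAV} {K V : Type} [Field K] [AddCommGroup V] [Module K V]
    (C : Comparison X K V) {κ : Type} [Fintype κ] [DecidableEq κ] (z : V [⋀^κ]→ₗ[K] K) : Prop :=
  ∀ (κ' : Type) [Fintype κ'] [DecidableEq κ'] (h : X.H1 [⋀^κ']→ₗ[ℚ] ℚ),
    Fintype.card κ + Fintype.card κ' = finrank ℚ X.H1 → R 𝒟 X κ' h →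
      ∀ v : κ ⊕ κ' → X.H1, altSum (times (onH1 C z) (fun u => ((h u : ℚ) : K))) v = 0

theorem isHodge_of_R {κ : Type} [Finite κ] {f : X.H1 [⋀^κ]→ₗ[ℚ] ℚ} (hf : R 𝒟 X κ f) :
    IsHodge X.per f := Pool.Agent.Q247.WT.conv 𝒟 (av X) κ f hf inferInstance

/-- The polarization as a class in the ring. -/
theorem exists_divisor {E : X.H1 → X.H1 → ℚ} (hE : IsPolarization X E) :
    ∃ f : X.H1 [⋀^Fin 2]→ₗ[ℚ] ℚ, R 𝒟 X (Fin 2) f ∧ ∀ v, f v = E (v 0) (v 1) := by
  classical
  obtain ⟨H, hH, hHE⟩ := exists_herm hE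
  have hadd : ∀ a b c, E (a + b) c = E a c + E b c := by
    intro a b c
    have h1 : ((E (a + b) c : ℚ) : ℝ) = ((E a c + E b c : ℚ) : ℝ) := by
      rw [Rat.cast_add, ← hHE, ← hHE, ← hHE, map_add, hH.add_left, Complex.add_im]
    exact_mod_cast h1
  have hanti : ∀ a b, E a b = -E b a := by
    intro a b
    have h1 : ((E a b : ℚ) : ℝ) = ((-E b a : ℚ) : ℝ) := by
      rw [Rat.cast_neg, ← hHE, ← hHE, hH.symm (X.per b) (X.per a), Complex.conj_im]
    exact_mod_cast h1
  have hsmul : ∀ (q : ℚ) a c, E (q • a) c = q * E a c := by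
    intro q a c
    have h1 : ((E (q • a) c : ℚ) : ℝ) = ((q * E a c : ℚ) : ℝ) := by
      rw [Rat.cast_mul, ← hHE, ← hHE, per_rat_smul, hH.rsmul_left, Complex.im_ofReal_mul]
    exact_mod_cast h1
  have hadd' : ∀ a b c, E c (a + b) = E c a + E c b := by
    intro a b c
    rw [hanti, hadd, hanti a, hanti b]
    ring
  have hsmul' : ∀ (q : ℚ) a c, E c (q • a) = q * E c a := by
    intro q a c
    rw [hanti, hsmul, hanti a]
    ring
  let f : X.H1 [⋀^Fin 2]→ₗ[ℚ] ℚ :=
    { toFun := fun v => E (v 0) (v 1)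
      map_update_add' := by
        intro _ v i x y
        fin_cases i
        · simp [Function.update, hadd]
        · simp [Function.update, hadd']
      map_update_smul' := by
        intro _ v i a x
        fin_cases i
        · simp [Function.update, hsmul]
        · simp [Function.update, hsmul']
      map_eq_zero_of_eq' := by
        intro v i j hij hne
        have h0 : ∀ a, E a a = 0 := by
          intro a
          have h1 := hanti a a
          linarith
        have h1 : v 0 = v 1 := by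
          fin_cases i <;> fin_cases j <;> first | exact hij | exact hij.symm | exact absurd rfl hne
        change E (v 0) (v 1) = 0
        rw [h1]
        exact h0 _ }
  refine ⟨f, R.divisor (by simp) f ⟨bil (imB hH), fun v => ?_, fun z hz u => ?_⟩, fun v => rfl⟩
  · exact hHE _ _
  · change (H (z • u 0) (z • u 1)).im = (H (u 0) (u 1)).im
    have h1 : H (z • u 0) (z • u 1) = H (u 0) (u 1) := by
      rw [hH.smul_left, hH.symm (z • u 1) (u 0), hH.smul_left, map_mul, ← hH.symm, ← mul_assoc,
        Complex.mul_conj, Complex.normSq_eq_norm_sq, hz]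
      norm_num
    rw [h1]

/-- The powers of the polarization as classes in the ring. -/
theorem exists_power {E : X.H1 → X.H1 → ℚ} (hE : IsPolarization X E) (m : ℕ) :
    ∃ (f : X.H1 [⋀^Fin m × Fin 2]→ₗ[ℚ] ℚ) (a : ℚ), a ≠ 0 ∧ R 𝒟 X (Fin m × Fin 2) f ∧
      ∀ v, f v = a * altSum (powE E m) v := by
  classical
  obtain ⟨e, he, hev⟩ := exists_divisor (𝒟 := 𝒟) hE
  induction m with
  | zero =>
    refine ⟨AlternatingMap.constOfIsEmpty ℚ _ _ 1, 1, one_ne_zero, R.unit _, fun v => ?_⟩
    unfold altSum powE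
    simp
  | succ m ih =>
    obtain ⟨f, a, ha, hf, hfv⟩ := ih
    refine ⟨(cupAlt e f).domDomCongr (gE m), Fintype.card (Perm (Fin m × Fin 2)) * a,
      mul_ne_zero (Nat.cast_ne_zero.2 Fintype.card_ne_zero) ha,
      R.reindex _ _ (R.cup e f he hf _ fun v => cupAlt_apply e f v), fun v => ?_⟩
    have h1 : ((cupAlt e f).domDomCongr (gE m)) v = cupAlt e f (fun p => v (gE m p)) := rfl
    have h2 : ∀ w : Fin 2 ⊕ (Fin m × Fin 2) → X.H1, cupAlt e f w =
        altSum (times (fun u : Fin 2 → X.H1 => E (u 0) (u 1))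
          (fun u => a * altSum (powE E m) u)) w := by
      intro w
      rw [cupAlt_apply]
      unfold altSum times
      refine Finset.sum_congr rfl fun σ _ => ?_
      rw [hev, hfv]
      rfl
    have h3 : altSum (times (fun u : Fin 2 → X.H1 => E (u 0) (u 1))
        (fun u => a * altSum (powE E m) u)) (fun p => v (gE m p)) =
        a * altSum (times (fun u : Fin 2 → X.H1 => E (u 0) (u 1)) (altSum (powE E m)))
          (fun p => v (gE m p)) := by
      rw [← altSum_const_mul]
      congr 1
      funext w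
      unfold times
      ring
    have h4 : altSum (powE E (m + 1)) v = altSum (times (fun u : Fin 2 → X.H1 => E (u 0) (u 1))
        (powE E m)) (fun p => v (gE m p)) := by
      rw [← altSum_reindex (gE m)]
      congr 1
      funext w
      unfold powE times
      rw [Fin.prod_univ_succ]
      rfl
    rw [h1, h2, h3, altSum_absorb, h4]
    ring

/-- The form obtained by applying an additive map to the coefficients. -/
theorem exists_functional_form {K V : Type} [Field K] [CharZero K] [AddCommGroup V] [Module K V]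
    (C : Comparison X K V) {κ : Type} (z : V [⋀^κ]→ₗ[K] K) (hz : IsGenerated 𝒟 C z)
    (l : K →+ ℚ) : ∃ p : X.H1 [⋀^κ]→ₗ[ℚ] ℚ, R 𝒟 X κ p ∧ ∀ v, p v = l (onH1 C z v) := by
  obtain ⟨n, c, g, hg, hz⟩ := hz
  refine ⟨∑ i, l (c i) • g i, ?_, fun v => ?_⟩
  · have h1 : ∀ s : Finset (Fin n), R 𝒟 X κ (∑ i ∈ s, l (c i) • g i) := by
      intro s
      classical
      induction s using Finset.induction_on with
      | empty => exact R.zero κ
      | insert i s hi ih =>
        rw [Finset.sum_insert hi]
        exact R.add _ _ (R.smul _ _ (hg i)) ih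
    exact h1 Finset.univ
  · have h1 : onH1 C z v = ∑ i, c i * (g i v : K) := hz v
    let ev : (X.H1 [⋀^κ]→ₗ[ℚ] ℚ) →+ ℚ :=
      { toFun := fun f => f v, map_zero' := rfl, map_add' := fun _ _ => rfl }
    have h0 : (∑ i, l (c i) • g i) v = ∑ i, (l (c i) • g i) v := map_sum ev _ _
    rw [h1, map_sum, h0]
    refine Finset.sum_congr rfl fun i _ => ?_
    have h2 : c i * (g i v : K) = (g i v) • c i := by
      rw [Rat.smul_def, mul_comm]
    rw [h2, map_rat_smul, AlternatingMap.smul_apply, smul_eq_mul, smul_eq_mul, mul_comm]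

/-- The standard conjecture of Hodge type, if the Hodge ring is generated by divisors and by
pull-backs of split Weil classes. -/
theorem positive_of_generated (X : CMAV) {K V : Type} [Field K] [CharZero K] [AddCommGroup V]
    [Module K V] (C : Comparison X K V) {E : X.H1 → X.H1 → ℚ} (hE : IsPolarization X E) (r m : ℕ)
    (hrm : 2 * (2 * r + m) = finrank ℚ X.H1) (z : V [⋀^Fin r × Fin 2]→ₗ[K] K)
    (hgen : IsGenerated 𝒟 C z) (hrat : HasRationalNumbers 𝒟 C z) (hprim : IsPrimitive C E m z)
    (hz : z ≠ 0) : IsPositive C E m z := by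
  classical
  obtain ⟨v0, hv0⟩ := exists_vol_rat hE r m hrm
  obtain ⟨em, a, ha, hem, hemv⟩ := exists_power hE m
  -- primitivity of the rational forms
  have hprim' : ∀ l : K →+ ℚ, ∀ p : X.H1 [⋀^Fin r × Fin 2]→ₗ[ℚ] ℚ, (∀ v, p v = l (onH1 C z v)) →
      ∀ v, altSum (times p (powE E (m + 1))) v = 0 := by
    intro l p hp v
    have h1 := congrArg l (hprim v)
    have h2 : (powE (castE K E) (m + 1) : (Fin (m + 1) × Fin 2 → X.H1) → K) =
        fun u => ((powE E (m + 1) u : ℚ) : K) := by
      funext u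
      exact (powE_cast (Rat.castHom K) E (m + 1) u).symm
    rw [h2, functional_altSum, map_zero] at h1
    rw [← h1]
    congr 1
    funext w
    unfold times
    rw [hp]
  -- functionals vanishing at one
  have hvan : ∀ l : K →+ ℚ, l 1 = 0 → ∀ v, l (onH1 C z v) = 0 := by
    intro l hl v
    obtain ⟨p, hp, hpv⟩ := exists_functional_form C z hgen l
    by_contra hne
    have hp0 : p ≠ 0 := by
      intro h
      apply hne
      rw [← hpv, h]
      rfl
    obtain ⟨c, hc, hceq⟩ := hodgeRiemann_rat hE r m hrm p (isHodge_of_R hp) hp0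
      (hprim' l p hpv)
    -- the complementary class
    have hcomp : R 𝒟 X _ (cupAlt p em) := R.cup p em hp hem _ fun w => cupAlt_apply p em w
    have hcompv : ∀ w, cupAlt p em w = a * (Fintype.card (Perm (Fin m × Fin 2)) *
        altSum (times p (powE E m)) w) := by
      intro w
      have h1 : cupAlt p em w = altSum (times p (fun u => a * altSum (powE E m) u)) w := by
        rw [cupAlt_apply]
        unfold altSum times
        refine Finset.sum_congr rfl fun σ _ => ?_
        rw [hemv]
        rfl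
      rw [h1, ← altSum_absorb, ← altSum_const_mul]
      congr 1
      funext w
      unfold times
      ring
    obtain ⟨b, hb⟩ := hrat _ (cupAlt p em) (by
      rw [← hrm]
      simp only [Fintype.card_prod, Fintype.card_fin, Fintype.card_sum]
      ring) hcomp v0
    have h3 : l (altSum (times (onH1 C z) (fun u => ((cupAlt p em u : ℚ) : K))) v0) = 0 := by
      rw [hb]
      have h4 : ((b : ℚ) : K) = b • (1 : K) := by rw [Rat.smul_def, mul_one]
      rw [h4, map_rat_smul, hl, smul_zero]
    rw [functional_altSum] at h3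
    have h4 : altSum (times (fun u => l (onH1 C z u)) (cupAlt p em)) v0 =
        a * (Fintype.card (Perm (Fin m × Fin 2)) *
          (Fintype.card (Perm ((Fin r × Fin 2) ⊕ (Fin m × Fin 2))) *
            altSum (times p (times p (powE E m))) v0)) := by
      rw [← altSum_absorb, ← altSum_const_mul, ← altSum_const_mul]
      congr 1
      funext w
      change l (onH1 C z (fun p => w (Sum.inl p))) * cupAlt p em (fun q => w (Sum.inr q)) = _
      rw [← hpv, hcompv]
      unfold times
      ring
    rw [h4] at h3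
    have h5 : altSum (times p (times p (powE E m))) v0 = 0 := by
      have h6 : (Fintype.card (Perm (Fin m × Fin 2)) : ℚ) ≠ 0 :=
        Nat.cast_ne_zero.2 Fintype.card_ne_zero
      have h7 : (Fintype.card (Perm ((Fin r × Fin 2) ⊕ (Fin m × Fin 2))) : ℚ) ≠ 0 :=
        Nat.cast_ne_zero.2 Fintype.card_ne_zero
      have h8 := (mul_eq_zero.1 h3).resolve_left ha
      have h9 := (mul_eq_zero.1 h8).resolve_left h6
      exact (mul_eq_zero.1 h9).resolve_left h7
    have h6 := hceq v0
    rw [h5, mul_zero] at h6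
    exact (mul_ne_zero hc.ne' hv0) h6.symm
  -- a retraction
  obtain ⟨l, hl⟩ : ∃ l : K →+ ℚ, l 1 = 1 := by
    let _ : Algebra ℚ K := DivisionRing.toRatAlgebra
    have h1 : (1 : K) ∉ (⊥ : Submodule ℚ K) := fun h => one_ne_zero ((Submodule.mem_bot ℚ).1 h)
    obtain ⟨l, hl, _⟩ := Submodule.exists_dual_map_eq_bot_of_notMem h1 inferInstance
    refine ⟨((l 1)⁻¹ • l).toAddMonoidHom, ?_⟩
    change (l 1)⁻¹ * l 1 = 1
    exact inv_mul_cancel₀ hl
  obtain ⟨p, hp, hpv⟩ := exists_functional_form C z hgen l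
  have hzp : ∀ v, onH1 C z v = (p v : K) := by
    intro v
    obtain ⟨b, hb⟩ := rational_of_functionals (onH1 C z v) fun l' hl' => hvan l' hl' v
    have h1 : (b : K) = b • (1 : K) := by rw [Rat.smul_def, mul_one]
    rw [hpv, hb, h1, map_rat_smul, hl, smul_eq_mul, mul_one, Rat.smul_def, mul_one]
  have hp0 : p ≠ 0 := by
    intro h
    refine hz (LQ.eq_zero_of_restr C z fun v => ?_)
    have h1 := hzp v
    rw [h] at h1
    rw [show z (fun k => C.ι (v k)) = onH1 C z v from rfl, h1]
    exact Rat.cast_zero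
  obtain ⟨c, hc, hceq⟩ := hodgeRiemann_rat hE r m hrm p (isHodge_of_R hp) hp0
    (hprim' l p hpv)
  refine ⟨c, hc, fun v => ?_⟩
  have h1 := congrArg (Rat.castHom K) (hceq v)
  rw [map_mul, map_mul, map_pow, map_neg, map_one, altSum_cast (Q := Unit),
    altSum_cast (Q := Unit), Rat.coe_castHom] at h1
  have hpow : ∀ k : ℕ, (powE (castE K E) k : (Fin k × Fin 2 → X.H1) → K) =
      fun u => ((powE E k u : ℚ) : K) := by
    intro k
    funext u
    exact (powE_cast (Rat.castHom K) E k u).symm
  have h2 : altSum (times (onH1 C z) (times (onH1 C z) (powE (castE K E) m))) v =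
      altSum (fun w => ((times p (times p (powE E m)) w : ℚ) : K)) v := by
    congr 1
    funext w
    unfold times
    rw [hpow, hzp, hzp, Rat.cast_mul, Rat.cast_mul]
  have h3 : altSum (times (powE (castE K E) r) (times (powE (castE K E) r)
      (powE (castE K E) m))) v =
      altSum (fun w => ((times (powE E r) (times (powE E r) (powE E m)) w : ℚ) : K)) v := by
    congr 1
    funext w
    unfold times
    rw [hpow, hpow, Rat.cast_mul, Rat.cast_mul]
  rw [h2, h3]
  exact h1

/-- The standard conjecture of Hodge type, if all Hodge classes on the canonical lift are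
generated. -/
theorem hodgeStandard (X : CMAV)
    (hring : ∀ {κ : Type} [Finite κ] (f : X.H1 [⋀^κ]→ₗ[ℚ] ℚ), IsHodge X.per f → R 𝒟 X κ f)
    (p : ℕ) [Fact p.Prime] (a : ℕ) (ha : 0 < a) (ν : PadicAlgCl p ≃+* ℂ) (π : X.H1)
    (hπ : IsCanonicalLift p a ν X π) {K V : Type} [Field K] [CharZero K] [AddCommGroup V]
    [Module K V] (C : Comparison X K V) (F : V →ₗ[K] V) (hF : IsFrobeniusMap C π F)
    {E : X.H1 → X.H1 → ℚ} (hE : IsPolarization X E) (r m : ℕ)
    (hrm : 2 * (2 * r + m) = finrank ℚ X.H1) (z : V [⋀^Fin r × Fin 2]→ₗ[K] K) (s : ℕ) (hs : 0 < s)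
    (htate : IsTateOver F (p ^ a) s z) (hrat : HasRationalNumbers 𝒟 C z)
    (hprim : IsPrimitive C E m z) (hz : z ≠ 0) : IsPositive C E m z := by
  have hp : p.Prime := Fact.out
  have hgen : IsGenerated 𝒟 C z := by
    let e : Fin r × Fin 2 ≃ Fin (2 * r) :=
      Fintype.equivFinOfCardEq (by rw [Fintype.card_prod, Fintype.card_fin, Fintype.card_fin,
        mul_comm])
    obtain ⟨n, c, g, hg, hz⟩ := tate_finiteField p a ha ν X hring π hπ C F hF hs
      (z.domDomCongr e) fun v => htate (fun k => v (e k))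
    refine ⟨n, c, fun i => (g i).domDomCongr e.symm, fun i => R.reindex _ _ (hg i), fun v => ?_⟩
    have h1 := hz (fun k => v (e.symm k))
    have h2 : (z.domDomCongr e) (fun k => C.ι (v (e.symm k))) = z (fun k => C.ι (v k)) := by
      rw [AlternatingMap.domDomCongr_apply]
      congr 1
      funext k
      simp
    rw [h2] at h1
    exact h1
  exact positive_of_generated X C hE r m hrm z hgen hrat hprim hz

theorem eq_zero_of_generated (X : CMAV)
    (hring : ∀ {κ : Type} [Finite κ] (f : X.H1 [⋀^κ]→ₗ[ℚ] ℚ), IsHodge X.per f → R 𝒟 X κ f)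
    {K V : Type} [Field K] [CharZero K] [AddCommGroup V]
    [Module K V] (C : Comparison X K V) {κ : Type} [Fintype κ] [DecidableEq κ]
    (hκ : Fintype.card κ ≤ finrank ℚ X.H1) (z : V [⋀^κ]→ₗ[K] K)
    (hgen : IsGenerated 𝒟 C z) (horth : IsOrthogonal 𝒟 C z) : z = 0 := by
  classical
  by_contra hz
  obtain ⟨v0, hv0⟩ : ∃ v0 : κ → X.H1, onH1 C z v0 ≠ 0 := by
    by_contra h
    push Not at h
    exact hz (LQ.eq_zero_of_restr C z h)
  obtain ⟨l, hl⟩ : ∃ l : K →+ ℚ, l (onH1 C z v0) ≠ 0 := by
    let _ : Algebra ℚ K := DivisionRing.toRatAlgebra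
    have h1 : onH1 C z v0 ∉ (⊥ : Submodule ℚ K) := fun h => hv0 ((Submodule.mem_bot ℚ).1 h)
    obtain ⟨l, hl, _⟩ := Submodule.exists_dual_map_eq_bot_of_notMem h1 inferInstance
    exact ⟨l.toAddMonoidHom, hl⟩
  obtain ⟨p, hp, hpv⟩ := exists_functional_form C z hgen l
  have hp0 : p ≠ 0 := by
    intro h
    apply hl
    rw [← hpv, h]
    rfl
  obtain ⟨g, hg, -, v, hv⟩ := Pool.Agent.W547.DP.exists_dual_class
    (κ' := Fin (finrank ℚ X.H1 - Fintype.card κ)) p
    (isHodge_of_R hp) hp0 (by rw [Fintype.card_fin]; omega) 1 1 1 one_ne_zero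
    (fun v => by simp) (by simp)
  have h1 := congrArg l (horth _ g (by rw [Fintype.card_fin]; omega) (hring g hg) v)
  rw [functional_altSum, map_zero] at h1
  apply hv
  rw [← h1]
  congr 1
  funext w
  unfold times
  beta_reduce
  rw [hpv]

/-- The standard conjecture D, if all Hodge classes on the canonical lift are generated. -/
theorem conjectureD (X : CMAV)
    (hring : ∀ {κ : Type} [Finite κ] (f : X.H1 [⋀^κ]→ₗ[ℚ] ℚ), IsHodge X.per f → R 𝒟 X κ f)
    (p : ℕ) [Fact p.Prime] (a : ℕ) (ha : 0 < a) (ν : PadicAlgCl p ≃+* ℂ) (π : X.H1)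
    (hπ : IsCanonicalLift p a ν X π) {K V : Type} [Field K] [CharZero K] [AddCommGroup V]
    [Module K V] (C : Comparison X K V) (F : V →ₗ[K] V) (hF : IsFrobeniusMap C π F)
    {r s : ℕ} (hs : 0 < s) (z : V [⋀^Fin (2 * r)]→ₗ[K] K)
    (htate : IsTateClassOver F (p ^ a) s z) (horth : IsOrthogonal 𝒟 C z) : z = 0 := by
  have hfin : Module.Finite K V := by
    classical
    let b := Module.finBasis ℚ X.H1
    refine ⟨⟨Finset.univ.image (fun i => C.ι (b i)), ?_⟩⟩
    rw [eq_top_iff, ← C.span_eq, Submodule.span_le]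
    rintro _ ⟨w, rfl⟩
    rw [← b.sum_repr w, map_sum]
    refine Submodule.sum_mem _ fun i _ => ?_
    let _ : Algebra ℚ K := DivisionRing.toRatAlgebra
    let _ : Module ℚ V := Module.compHom V (algebraMap ℚ K)
    have h1 : C.ι ((b.repr w i) • b i) = ((b.repr w i : ℚ) : K) • C.ι (b i) := by
      rw [map_rat_smul C.ι]
      rfl
    rw [h1]
    refine Submodule.smul_mem _ _ (Submodule.subset_span ?_)
    simp
  rcases Nat.lt_or_ge (finrank ℚ X.H1) (2 * r) with hr | hr
  · refine Pool.Agent.W547.DP.eq_zero_of_lt ?_ hfin z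
    rw [C.finrank_eq, Fintype.card_fin]
    exact hr
  exact eq_zero_of_generated X hring C (by rw [Fintype.card_fin]; exact hr) z
    (tate_finiteField p a ha ν X hring π hπ C F hF hs z htate) horth

section crystalline

open Pool.Agent.W547.UB (Agree exists_baseChange eq_of_restr₀)
open Pool.Agent.W547.DP
open scoped TensorProduct

variable {K₀ K V₀ : Type} [Field K₀] [CharZero K₀] [Field K] [Algebra K₀ K] [AddCommGroup V₀]
  [Module K₀ V₀]

/-- The subspace `A` of `H^{2m}(A₀, K₀)` has the following property of the space spanned by the classes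
of algebraic cycles of codimension `m` on `A₀`, over the field with `Q` elements with Frobenius
endomorphism `π`: each generated class `g` on the lift `X` of `A₀` which is multiplied by `Q ^ m`
by the Frobenius endomorphism agrees with a class in `A` (that of the specialization of the
cycle, if the generated classes are algebraic). -/
def ContainsRing (𝒟 : Set ℕ) {X : CMAV} {K₀ K V₀ : Type} [Field K₀] [Field K] [Algebra K₀ K]
    [AddCommGroup V₀] [Module K₀ V₀] (C : Comparison X K (K ⊗[K₀] V₀)) (π : X.H1) (Q : ℕ) {m : ℕ}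
    (A : Submodule K₀ (V₀ [⋀^Fin (2 * m)]→ₗ[K₀] K₀)) : Prop :=
  ∀ g : X.H1 [⋀^Fin (2 * m)]→ₗ[ℚ] ℚ, R 𝒟 X (Fin (2 * m)) g →
    (∀ v : Fin (2 * m) → X.H1, g (fun k => π * v k) = (Q : ℚ) ^ m * g v) → ∃ z ∈ A, Agree C z g

/-- Crystalline Tate classes on an ordinary abelian variety such that the Hodge ring of the canonical
lift is generated. -/
theorem crystalline_of_ring (p : ℕ) [Fact p.Prime] (a : ℕ) (ha : 0 < a)
    (ν : PadicAlgCl p ≃+* ℂ) (X : CMAV)
    (hring : ∀ {κ : Type} [Finite κ] (f : X.H1 [⋀^κ]→ₗ[ℚ] ℚ), IsHodge X.per f → R 𝒟 X κ f)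
    (π : X.H1) (hπ : IsCanonicalLift p a ν X π) [FiniteDimensional K₀ V₀]
    (C : Comparison X K (K ⊗[K₀] V₀)) (F : V₀ →ₗ[K₀] V₀)
    (hF : IsFrobeniusMap C π (F.baseChange K)) (s : ℕ) (hs : 0 < s) {m : ℕ}
    (A : Submodule K₀ (V₀ [⋀^Fin (2 * m)]→ₗ[K₀] K₀))
    (hA : ContainsRing 𝒟 C (π ^ s) ((p ^ a) ^ s) A) (f : V₀ [⋀^Fin (2 * m)]→ₗ[K₀] K₀)
    (hf : IsTateForm (F ^ s) ((p ^ a) ^ s) f) : f ∈ A := by
  classical
  have hp : p.Prime := Fact.out
  have hK : CharZero K := charZero_of_injective_algebraMap (algebraMap K₀ K).injective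
  let _ : Algebra ℚ K := DivisionRing.toRatAlgebra
  set Q : ℕ := (p ^ a) ^ s with hQdef
  have hQ : Q ≠ 0 := (pow_pos (pow_pos hp.pos a) s).ne'
  -- Frobenius
  have hFs : ∀ (N : ℕ) (x : X.H1), ((F.baseChange K) ^ N) (C.ι x) = C.ι (π ^ N * x) := by
    intro N
    induction N with
    | zero =>
      intro x
      simp
    | succ N ih =>
      intro x
      rw [pow_succ', Module.End.mul_apply, ih, pow_succ', mul_assoc]
      exact hF _
  have hFt : ∀ (N : ℕ) (u : V₀), ((F.baseChange K) ^ N) ((1 : K) ⊗ₜ[K₀] u) =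
      (1 : K) ⊗ₜ[K₀] ((F ^ N) u) := by
    intro N
    induction N with
    | zero =>
      intro u
      simp
    | succ N ih =>
      intro u
      rw [pow_succ', Module.End.mul_apply, ih, pow_succ', Module.End.mul_apply]
      rfl
  -- extension of the form
  obtain ⟨G, hG⟩ := exists_baseChange (K := K) f
  have hGF : G.compLinearMap ((F.baseChange K) ^ s) = ((Q : K) ^ m) • G := by
    refine eq_of_restr₀ _ _ fun u => ?_
    change G (fun k => ((F.baseChange K) ^ s) ((1 : K) ⊗ₜ[K₀] u k)) = (Q : K) ^ m * G _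
    simp only [hFt]
    rw [hG, hG, hf u, map_mul, map_pow, map_natCast]
  have hGπ : ∀ v : Fin (2 * m) → X.H1, G (fun k => C.ι (π ^ s * v k)) =
      (Q : K) ^ m * G (fun k => C.ι (v k)) := by
    intro v
    have h1 := DFunLike.congr_fun hGF (fun k => C.ι (v k))
    change G (fun k => ((F.baseChange K) ^ s) (C.ι (v k))) = (Q : K) ^ m * G _ at h1
    simp only [hFs] at h1
    exact h1
  -- decomposition into rational eigenforms
  obtain ⟨n, c, fr, hc, hfr⟩ := exists_decomp (Pool.Agent.W547.LF.restr C G)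
  have hfr' : ∀ v : Fin (2 * m) → X.H1, G (fun k => C.ι (v k)) = ∑ i, fr i v • c i := hfr
  have heig : ∀ i (v : Fin (2 * m) → X.H1), fr i (fun k => π ^ s * v k) = (Q : ℚ) ^ m * fr i v := by
    intro i v
    have h1 := hGπ v
    rw [hfr' (fun k => π ^ s * v k), hfr' v, Finset.mul_sum] at h1
    have h2 : ∑ i, (fr i (fun k => π ^ s * v k) - (Q : ℚ) ^ m * fr i v) • c i = 0 := by
      simp only [sub_smul, Finset.sum_sub_distrib]
      rw [h1, sub_eq_zero]
      refine Finset.sum_congr rfl fun i _ => ?_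
      rw [mul_smul, Algebra.smul_def ((Q : ℚ) ^ m), map_pow, map_natCast]
    have h3 := Fintype.linearIndependent_iff.1 hc _ h2 i
    exact sub_eq_zero.1 h3
  have hDW : ∀ i, R 𝒟 X (Fin (2 * m)) (fr i) := by
    intro i
    obtain ⟨z, hz⟩ := exists_ext C (fr i)
    obtain ⟨l, hl⟩ := exists_retraction K
    have hgen : IsGenerated 𝒟 C z := by
      refine tate_finiteField p a ha ν X hring π hπ C (F.baseChange K) hF hs z ?_
      intro v
      have h1 : z.compLinearMap ((F.baseChange K) ^ s) =
          (((p ^ a : ℕ) : K) ^ (m * s)) • z := by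
        have h2 : z.compLinearMap ((F.baseChange K) ^ s) -
            (((p ^ a : ℕ) : K) ^ (m * s)) • z = 0 := by
          refine LQ.eq_zero_of_restr C _ fun v => ?_
          change z (fun k => ((F.baseChange K) ^ s) (C.ι (v k))) -
            ((p ^ a : ℕ) : K) ^ (m * s) * z (fun k => C.ι (v k)) = 0
          simp only [hFs]
          rw [hz, hz, heig i v]
          rw [hQdef]
          push_cast
          rw [← pow_mul, ← pow_mul, ← pow_mul, mul_comm s m, sub_self]
        exact sub_eq_zero.1 h2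
      exact DFunLike.congr_fun h1 v
    obtain ⟨q', hq', hqv⟩ := exists_functional_form C z hgen l
    have h1 : q' = fr i := by
      ext v
      rw [hqv]
      change l (z (fun k => C.ι (v k))) = _
      rw [hz, retraction_cast l hl]
    rw [← h1]
    exact hq'
  choose z hzA hz using fun i => hA (fr i) (hDW i) (heig i)
  choose G' hG1 hG2 using hz
  have hsum : G = ∑ i, c i • G' i := by
    have h2 : G - ∑ i, c i • G' i = 0 := by
      refine LQ.eq_zero_of_restr C _ fun v => ?_
      let E : ((K ⊗[K₀] V₀) [⋀^Fin (2 * m)]→ₗ[K] K) →+ K :=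
        { toFun := fun f => f (fun k => C.ι (v k)), map_zero' := rfl, map_add' := fun _ _ => rfl }
      have h3 : (∑ i, c i • G' i) (fun k => C.ι (v k)) =
          ∑ i, (c i • G' i) (fun k => C.ι (v k)) := map_sum E _ _
      change G (fun k => C.ι (v k)) - (∑ i, c i • G' i) (fun k => C.ι (v k)) = 0
      rw [h3, hfr', sub_eq_zero]
      refine Finset.sum_congr rfl fun i _ => ?_
      change _ = c i * G' i (fun k => C.ι (v k))
      rw [hG1, Algebra.smul_def, eq_ratCast, mul_comm]
    exact sub_eq_zero.1 h2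
  -- a retraction from `K` to `K₀`
  have h1 : (1 : K) ∉ (⊥ : Submodule K₀ K) := fun h => one_ne_zero ((Submodule.mem_bot K₀).1 h)
  obtain ⟨l, hl, _⟩ := Submodule.exists_dual_map_eq_bot_of_notMem h1 inferInstance
  let r : K →ₗ[K₀] K₀ := (l 1)⁻¹ • l
  have hr : ∀ x : K₀, r (algebraMap K₀ K x) = x := by
    intro x
    rw [Algebra.algebraMap_eq_smul_one, map_smul]
    change x • ((l 1)⁻¹ • l 1) = x
    rw [smul_eq_mul (l 1)⁻¹, inv_mul_cancel₀ hl, smul_eq_mul, mul_one]
  have hfin : f = ∑ i, r (c i) • z i := by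
    ext u
    let E : (V₀ [⋀^Fin (2 * m)]→ₗ[K₀] K₀) →+ K₀ :=
      { toFun := fun f => f u, map_zero' := rfl, map_add' := fun _ _ => rfl }
    have h3 : (∑ i, r (c i) • z i) u = ∑ i, (r (c i) • z i) u := map_sum E _ _
    rw [h3]
    let E' : ((K ⊗[K₀] V₀) [⋀^Fin (2 * m)]→ₗ[K] K) →+ K :=
      { toFun := fun f => f (fun k => (1 : K) ⊗ₜ[K₀] u k), map_zero' := rfl,
        map_add' := fun _ _ => rfl }
    have h4 : (∑ i, c i • G' i) (fun k => (1 : K) ⊗ₜ[K₀] u k) =
        ∑ i, (c i • G' i) (fun k => (1 : K) ⊗ₜ[K₀] u k) := map_sum E' _ _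
    have h5 := hG u
    rw [hsum, h4] at h5
    have h6 := congrArg r h5
    rw [hr, map_sum] at h6
    rw [← h6]
    refine Finset.sum_congr rfl fun i _ => ?_
    change r (c i * G' i (fun k => (1 : K) ⊗ₜ[K₀] u k)) = r (c i) * z i u
    rw [hG2, mul_comm, ← Algebra.smul_def, map_smul, smul_eq_mul, mul_comm]
  rw [hfin]
  exact A.sum_mem fun i _ => A.smul_mem _ (hzA i)


end crystalline

end

end Pool.Agent.Q60.D3T
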